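import Pool.Agent.N728.QN.Def
import Pool.Agent.N401.QL.CST

set_option autoImplicit false

/-! Project QN (helper728), task CST: the Euler product is close to its partial products for almost all `b`, and is
bounded below, for both signs of `a`. -/

namespace Pool.Agent.N314.QN

open Finset Filter Topology
open Pool.Agent.N728.QL Pool.Agent.N728.QN
open Pool.Agent.W468.ConjF (SJ PJ)
open Pool.Agent.N401.QL (Sg_eq jac_bd partialC_nonneg partialC_le)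

/-- the product beyond `z` -/
lemma partialC_split {a b c : ℤ} (ha : a ≠ 0) {z N : ℕ} (hz : 2 ≤ z)
    (haz : a.natAbs ≤ z) (hN : z ≤ N) :
    partialC a b c N = partialC a b c z * PJ (b ^ 2 - 4 * a * c) z N := by
  classical
  have hle : ∀ p : ℕ, (p : ℤ) ∣ a → p ≤ z := by
    intro p hp
    have h1 : p ∣ a.natAbs := Int.natCast_dvd.1 hp
    exact (Nat.le_of_dvd (Int.natAbs_pos.2 ha) h1).trans haz
  have e1 : (Icc 3 N).filter (fun p : ℕ => p.Prime ∧ (p : ℤ) ∣ a ∧ (p : ℤ) ∣ b) =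
      (Icc 3 z).filter (fun p : ℕ => p.Prime ∧ (p : ℤ) ∣ a ∧ (p : ℤ) ∣ b) := by
    ext p
    simp only [mem_filter, mem_Icc]
    constructor
    · rintro ⟨⟨h1, h2⟩, h3, h4, h5⟩
      exact ⟨⟨h1, hle p h4⟩, h3, h4, h5⟩
    · rintro ⟨⟨h1, h2⟩, h3⟩
      exact ⟨⟨h1, by omega⟩, h3⟩
  have e2 : (Icc 3 N).filter (fun p : ℕ => p.Prime ∧ ¬ (p : ℤ) ∣ a) =
      (Icc 3 z).filter (fun p : ℕ => p.Prime ∧ ¬ (p : ℤ) ∣ a) ∪ (Ioc z N).filter Nat.Prime := by
    ext p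
    simp only [mem_filter, mem_Icc, mem_union, mem_Ioc]
    constructor
    · rintro ⟨⟨h1, h2⟩, h3, h4⟩
      by_cases h5 : p ≤ z
      · exact Or.inl ⟨⟨h1, h5⟩, h3, h4⟩
      · exact Or.inr ⟨⟨by omega, h2⟩, h3⟩
    · rintro (⟨⟨h1, h2⟩, h3, h4⟩ | ⟨⟨h1, h2⟩, h3⟩)
      · exact ⟨⟨h1, by omega⟩, h3, h4⟩
      · refine ⟨⟨by omega, h2⟩, h3, fun h6 => ?_⟩
        have h7 := hle p h6
        omega
  have hdis : Disjoint ((Icc 3 z).filter (fun p : ℕ => p.Prime ∧ ¬ (p : ℤ) ∣ a))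
      ((Ioc z N).filter Nat.Prime) := by
    rw [disjoint_left]
    intro p hp hp'
    rw [mem_filter, mem_Icc] at hp
    rw [mem_filter, mem_Ioc] at hp'
    omega
  unfold partialC
  rw [e1, e2, prod_union hdis]
  unfold PJ
  ring

/-- a lower bound for the partial products -/
lemma partialC_ge (a b c : ℤ) (z : ℕ) : (1 / 2 : ℝ) ^ (z + 1) ≤ partialC a b c z := by
  have hc : ((Icc 3 z).filter (fun p : ℕ => p.Prime ∧ ¬ (p : ℤ) ∣ a)).card ≤ z := by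
    refine (card_filter_le _ _).trans ?_
    rw [Nat.card_Icc]
    omega
  have h1 : 1 ≤ ∏ p ∈ (Icc 3 z).filter (fun p : ℕ => p.Prime ∧ (p : ℤ) ∣ a ∧ (p : ℤ) ∣ b), (p : ℝ) / (p - 1) := by
    have h0 : ∀ p ∈ (Icc 3 z).filter (fun p : ℕ => p.Prime ∧ (p : ℤ) ∣ a ∧ (p : ℤ) ∣ b),
        1 ≤ (p : ℝ) / (p - 1) := by
      intro p hp
      rw [mem_filter, mem_Icc] at hp
      have h3 : (3 : ℝ) ≤ p := by exact_mod_cast hp.1.1
      rw [le_div_iff₀ (by linarith)]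
      linarith
    calc (1 : ℝ) = ∏ p ∈ (Icc 3 z).filter (fun p : ℕ => p.Prime ∧ (p : ℤ) ∣ a ∧ (p : ℤ) ∣ b), (1 : ℝ) := by
          rw [prod_const_one]
      _ ≤ _ := prod_le_prod (fun p _ => zero_le_one) h0
  have h2 : (1 / 2 : ℝ) ^ z ≤ ∏ p ∈ (Icc 3 z).filter (fun p : ℕ => p.Prime ∧ ¬ (p : ℤ) ∣ a),
      (1 - (jacobiSym (b ^ 2 - 4 * a * c) p : ℝ) / (p - 1)) := by
    have h0 : ∀ p ∈ (Icc 3 z).filter (fun p : ℕ => p.Prime ∧ ¬ (p : ℤ) ∣ a),
        (1 / 2 : ℝ) ≤ (1 - (jacobiSym (b ^ 2 - 4 * a * c) p : ℝ) / (p - 1)) := by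
      intro p hp
      rw [mem_filter, mem_Icc] at hp
      have h3 : (3 : ℝ) ≤ p := by exact_mod_cast hp.1.1
      have h4 := abs_le.1 (jac_bd (b ^ 2 - 4 * a * c) p)
      have h5 : (jacobiSym (b ^ 2 - 4 * a * c) p : ℝ) / ((p : ℝ) - 1) ≤ 1 / 2 := by
        rw [div_le_iff₀ (by linarith)]
        linarith
      linarith
    calc (1 / 2 : ℝ) ^ z ≤ (1 / 2) ^ ((Icc 3 z).filter (fun p : ℕ => p.Prime ∧ ¬ (p : ℤ) ∣ a)).card :=
          pow_le_pow_of_le_one (by norm_num) (by norm_num) hc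
      _ = ∏ p ∈ (Icc 3 z).filter (fun p : ℕ => p.Prime ∧ ¬ (p : ℤ) ∣ a), (1 / 2 : ℝ) := by rw [prod_const]
      _ ≤ _ := prod_le_prod (fun p _ => by norm_num) h0
  unfold partialC
  have h5 : (1 / 2 : ℝ) ≤ (if Odd (a + b) then (1 / 2 : ℝ) else 1) := by split_ifs <;> norm_num
  calc (1 / 2 : ℝ) ^ (z + 1) = 1 / 2 * 1 * (1 / 2) ^ z := by ring
    _ ≤ _ := mul_le_mul (mul_le_mul h5 h1 zero_le_one (by linarith)) h2 (by positivity)
        (mul_nonneg (by linarith) (by linarith))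

theorem t_CSTN : ∀ a c : ℤ, a ≠ 0 → c ≠ 0 → S_CSTN a c := by
  intro a c ha hc ε hε
  classical
  have hn : 4 * a * c ≠ 0 := mul_ne_zero (mul_ne_zero (by norm_num) ha) hc
  obtain ⟨z₁, hz₁⟩ := Pool.Agent.W218.HF.good_most_b (4 * a * c) hn (1 / 16) (ε / 2) (by norm_num) (by positivity)
  -- the first height
  obtain ⟨z', hz'⟩ : ∃ z' : ℕ, z' = max z₁ (max 80 a.natAbs) := ⟨_, rfl⟩
  have hz'1 : z₁ ≤ z' := by rw [hz']; exact le_max_left _ _
  have hz'2 : 80 ≤ z' := by rw [hz']; exact (le_max_left _ _).trans (le_max_right _ _)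
  have hz'3 : a.natAbs ≤ z' := by rw [hz']; exact (le_max_right _ _).trans (le_max_right _ _)
  obtain ⟨H₁, hH₁⟩ := hz₁ z' hz'1
  refine ⟨4 ^ z' * 2, (1 / 2) ^ (z' + 1) * (1 / 2), by positivity, by positivity, fun δ hδ => ?_⟩
  obtain ⟨K0, hK0⟩ : ∃ K0 : ℝ, K0 = 4 ^ z' * 2 := ⟨_, rfl⟩
  rw [← hK0]
  have hK0p : 0 < K0 := by rw [hK0]; positivity
  obtain ⟨d, hd⟩ : ∃ d : ℝ, d = min (1 / 8) (δ / (16 * K0)) := ⟨_, rfl⟩
  have hd0 : 0 < d := by rw [hd]; exact lt_min (by norm_num) (by positivity)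
  have hd1 : d ≤ 1 / 8 := by rw [hd]; exact min_le_left _ _
  have hd2 : d ≤ δ / (16 * K0) := by rw [hd]; exact min_le_right _ _
  obtain ⟨z₂, hz₂⟩ := Pool.Agent.W218.HF.good_most_b (4 * a * c) hn d (ε / 2) hd0 (by positivity)
  refine ⟨max z₂ (max z' ⌈5 / d⌉₊), fun z hz => ?_⟩
  have hzz₂ : z₂ ≤ z := (le_max_left _ _).trans hz
  have hzz' : z' ≤ z := (le_max_left _ _).trans ((le_max_right _ _).trans hz)
  have hz5 : 5 / (z : ℝ) ≤ d := by
    have h1 : ⌈5 / d⌉₊ ≤ z := (le_max_right _ _).trans ((le_max_right _ _).trans hz)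
    have h2 : 5 / d ≤ z := (Nat.le_ceil _).trans (by exact_mod_cast h1)
    have hzp : (0 : ℝ) < z := by
      have : 0 < z := by omega
      exact_mod_cast this
    rw [div_le_iff₀ hd0] at h2
    rw [div_le_iff₀ hzp]
    linarith
  have hz2 : 2 ≤ z := by omega
  obtain ⟨H₂, hH₂⟩ := hz₂ z hzz₂
  refine ⟨max H₁ H₂, fun B hB => ?_⟩
  obtain ⟨E₁, hE₁, hb₁⟩ := hH₁ B ((le_max_left _ _).trans hB)
  obtain ⟨E₂, hE₂, hb₂⟩ := hH₂ B ((le_max_right _ _).trans hB)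
  have hsub : (Icc 1 B).filter (fun b : ℕ => Admissible a b c ∧
      ¬ ∃ K : ℝ, IsC a b c K ∧ (1 / 2) ^ (z' + 1) * (1 / 2) ≤ K ∧ K ≤ K0 ∧ |2 * K - Sg a b c z| ≤ δ) ⊆ E₁ ∪ E₂ := by
    intro b hb
    rw [mem_filter] at hb
    obtain ⟨hbI, hadm, hnot⟩ := hb
    by_contra hcon
    rw [mem_union, not_or] at hcon
    obtain ⟨hsq, htail₁⟩ := hb₁ b hbI hcon.1
    obtain ⟨-, htail₂⟩ := hb₂ b hbI hcon.2
    apply hnot
    have hz'20 : (80 : ℝ) ≤ z' := by exact_mod_cast hz'2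
    have h51 : (1 / 16 : ℝ) + 5 / z' ≤ 1 / 2 := by
      have h1 : 5 / (z' : ℝ) ≤ 1 / 16 := by
        rw [div_le_div_iff₀ (by linarith) (by norm_num)]
        linarith
      linarith
    obtain ⟨L₁, hL₁0, hL₁, hL₁b⟩ := Pool.Agent.R460.SC.PJ_lim hsq (by omega : 2 ≤ z') (by norm_num) h51 htail₁
    obtain ⟨L₂, hL₂0, hL₂, hL₂b⟩ := Pool.Agent.R460.SC.PJ_lim hsq hz2 hd0.le (by linarith) htail₂
    have hK₁ : IsC a b c (partialC a b c z' * L₁) := by
      refine (hL₁.const_mul (partialC a b c z')).congr' ?_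
      filter_upwards [eventually_ge_atTop z'] with N hN
      rw [partialC_split ha (by omega) hz'3 hN]
    have hK₂ : IsC a b c (partialC a b c z * L₂) := by
      refine (hL₂.const_mul (partialC a b c z)).congr' ?_
      filter_upwards [eventually_ge_atTop z] with N hN
      rw [partialC_split ha (by omega) (by omega) hN]
    have hKe : partialC a b c z' * L₁ = partialC a b c z * L₂ := tendsto_nhds_unique hK₁ hK₂
    have hP0 := partialC_nonneg a b c z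
    have hP1 := partialC_nonneg a b c z'
    have hP2 := partialC_le a b c z'
    have hL₁2 : L₁ ≤ 2 := by
      have h1 := (abs_le.1 hL₁b).2
      have h2 : 5 / (z' : ℝ) ≤ 1 / 16 := by
        rw [div_le_div_iff₀ (by linarith) (by norm_num)]
        linarith
      linarith
    have hKK : partialC a b c z * L₂ ≤ K0 := by
      rw [← hKe, hK0]
      exact mul_le_mul hP2 hL₁2 hL₁0.le (by positivity)
    have hL₂1 : |L₂ - 1| ≤ 4 * d := hL₂b.trans (by linarith)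
    have hL₂2 : 1 / 2 ≤ L₂ := by
      have h1 := (abs_le.1 hL₂1).1
      linarith
    have hL₁3 : 1 / 2 ≤ L₁ := by
      have h1 := (abs_le.1 hL₁b).1
      have h2 : 5 / (z' : ℝ) ≤ 1 / 16 := by
        rw [div_le_div_iff₀ (by linarith) (by norm_num)]
        linarith
      linarith
    have hκ : (1 / 2) ^ (z' + 1) * (1 / 2) ≤ partialC a b c z * L₂ := by
      rw [← hKe]
      exact mul_le_mul (partialC_ge a b c z') hL₁3 (by norm_num) hP1
    refine ⟨partialC a b c z * L₂, hK₂, hκ, hKK, ?_⟩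
    rw [Sg_eq hadm hz2]
    have e1 : 2 * (partialC a b c z * L₂) - 2 * partialC a b c z = 2 * partialC a b c z * (L₂ - 1) := by ring
    rw [e1, abs_mul, abs_of_nonneg (by linarith : 0 ≤ 2 * partialC a b c z)]
    have hPz : partialC a b c z ≤ 2 * K0 := by nlinarith
    have hd3 : d * (16 * K0) ≤ δ := by
      rwa [le_div_iff₀ (by positivity)] at hd2
    calc 2 * partialC a b c z * |L₂ - 1| ≤ 2 * (2 * K0) * (4 * d) := by
          refine mul_le_mul (by linarith) hL₂1 (abs_nonneg _) (by positivity)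
      _ = d * (16 * K0) := by ring
      _ ≤ δ := hd3
  have h1 : (((Icc 1 B).filter (fun b : ℕ => Admissible a b c ∧
      ¬ ∃ K : ℝ, IsC a b c K ∧ (1 / 2) ^ (z' + 1) * (1 / 2) ≤ K ∧ K ≤ K0 ∧ |2 * K - Sg a b c z| ≤ δ)).card : ℝ) ≤
      ((E₁ ∪ E₂).card : ℝ) := by exact_mod_cast card_le_card hsub
  have h2 : ((E₁ ∪ E₂).card : ℝ) ≤ (E₁.card : ℝ) + (E₂.card : ℝ) := by exact_mod_cast card_union_le _ _
  linarith

end Pool.Agent.N314.QN
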